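import Pool.Agent.H4.NcbD

set_option autoImplicit false

namespace Pool.Agent.Results.MP_0fda35_co.Yes

open scoped ComplexOrder

/-- bounded functions -/
def Bd {G : Type} (f : G → ℂ) : Prop := ∃ C : ℝ, ∀ x, ‖f x‖ ≤ C

/-- translation invariant means: only the values on bounded functions matter -/
def IsMean {G : Type} [AddCommGroup G] (m : (G → ℂ) → ℂ) : Prop :=
  (∀ f g, Bd f → Bd g → m (fun x => f x + g x) = m f + m g) ∧
  (∀ (c : ℂ) f, Bd f → m (fun x => c * f x) = c * m f) ∧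
  (∀ f, Bd f → (∀ x, 0 ≤ f x) → 0 ≤ m f) ∧ m (fun _ => 1) = 1 ∧
  ∀ (h : G) f, Bd f → m (fun x => f (x + h)) = m f

/-- upper Banach density -/
noncomputable def dstar {G : Type} [AddCommGroup G] (A : Set G) : ℝ :=
  sSup {r | ∃ m, IsMean m ∧ r = (m (A.indicator fun _ => 1)).re}

/-- Bohr sets -/
def Bohr {G : Type} [AddCommGroup G] {k : ℕ} (χ : Fin k → AddChar G Circle) (η : ℝ) : Set G :=
  {g | ∀ j, ‖((χ j g : Circle) : ℂ) - 1‖ < η}

theorem result (d : ℕ) (hd : 3 ≤ d) (M : ℕ) (δ : ℝ) (hδ : 0 < δ) :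
    ∃ (k : ℕ) (η : ℝ), 0 < η ∧ ∀ (G : Type) [AddCommGroup G] (φ : Fin d → G →+ G),
      (∀ j, (φ j).range.index ≠ 0 ∧ (φ j).range.index ≤ M) → ∑ j, φ j = 0 →
      ∀ A : Set G, δ ≤ dstar A → ∃ χ : Fin k → AddChar G Circle,
        Bohr χ η ⊆ {g | ∃ a : Fin d → G, (∀ j, a j ∈ A) ∧ g = ∑ j, φ j (a j)} := by
  obtain ⟨k, η, e, h⟩ := Pool.Agent.H4.Ncb.core (Fin d) (by simpa using hd) M (half_pos hδ)
  refine ⟨k, η, e, fun G _ φ a b A c => ?_⟩
  by_cases n : {r | ∃ m, IsMean m ∧ r = (m (A.indicator fun _ => 1)).re}.Nonempty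
  · obtain ⟨_, ⟨m, x, rfl⟩, y⟩ := exists_lt_of_lt_csSup n ((half_lt_self hδ).trans_le c)
    refine h G φ a b A ⟨⟨fun f => m f.1, fun f g => x.1 _ _ f.2 g.2⟩, fun c f => x.2.1 c _ f.2⟩
      ⟨fun f => x.2.2.1 _ f.2, x.2.2.2.1, fun h f => x.2.2.2.2 h _ f.2⟩ (y.le.trans_eq ?_)
    exact congrArg (fun f => (m f).re) (funext fun z => by
      by_cases k : z ∈ A <;> simp [Pool.Agent.H4.Ncb.ind, k])
  · rw [dstar, Set.not_nonempty_iff_eq_empty.1 n, Real.sSup_empty] at c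
    exact absurd hδ c.not_gt

end Pool.Agent.Results.MP_0fda35_co.Yes
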